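import Pool.Agent.Helper15.EP.St

set_option autoImplicit false

/-!
# Module KDC (project EP, MP_16cbc0_nt)
Decomposition of the modulus.
-/

namespace Pool.Agent.Helper66.EP

open Polynomial Pool.Agent.Helper15.FC Pool.Agent.Helper15.EP

theorem kdc_aux (F : Type) [Field F] (t : F[X]) : ∀ (n : ℕ) (m : F[X]),
    m.natDegree ≤ n → m.Monic →
    ∃ m1 a s : F[X], m1.Monic ∧ a.Monic ∧ s.Monic ∧ m = m1 * (a ^ 2 * s) ∧ Squarefree m1 ∧
    IsCoprime m1 (a ^ 2 * s) ∧ IsCoprime m1 t ∧ s ∣ a * t := by
  intro n
  induction n with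
  | zero =>
    intro m hm hmm
    have h1 : m = 1 := by
      apply Polynomial.eq_one_of_monic_natDegree_zero hmm
      omega
    refine ⟨1, 1, 1, monic_one, monic_one, monic_one, by simp [h1], squarefree_one,
      isCoprime_one_left, isCoprime_one_left, one_dvd _⟩
  | succ n ih =>
    intro m hm hmm
    by_cases h0 : m.natDegree = 0
    · exact ih m (by omega) hmm
    · have hnu : ¬ IsUnit m := by
        intro hu
        exact h0 (Polynomial.natDegree_eq_zero_of_isUnit hu)
      obtain ⟨P, hPm, hPi, hPd⟩ := Polynomial.exists_monic_irreducible_factor m hnu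
      have hPdeg : 0 < P.degree := Polynomial.degree_pos_of_irreducible hPi
      have hfin : FiniteMultiplicity P m :=
        Polynomial.finiteMultiplicity_of_degree_pos_of_monic hPdeg hPm hmm.ne_zero
      obtain ⟨c, hc, hPc⟩ := hfin.exists_eq_pow_mul_and_not_dvd
      obtain ⟨e, he⟩ : ∃ e, e = multiplicity P m := ⟨_, rfl⟩
      rw [← he] at hc
      have hcm : c.Monic := by
        have h1 : (P ^ e * c).Monic := hc ▸ hmm
        exact (hPm.pow e).of_mul_monic_left h1
      have he0 : e ≠ 0 := by
        intro h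
        rw [h, pow_zero, one_mul] at hc
        exact hPc (hc ▸ hPd)
      have hdeg : m.natDegree = e * P.natDegree + c.natDegree := by
        rw [hc, (hPm.pow e).natDegree_mul hcm, hPm.natDegree_pow]
      have hPn : 0 < P.natDegree := Polynomial.natDegree_pos_iff_degree_pos.2 hPdeg
      have hcn : c.natDegree ≤ n := by
        have : 0 < e * P.natDegree := Nat.mul_pos (Nat.pos_of_ne_zero he0) hPn
        omega
      have hcopc : IsCoprime P c := (hPi.coprime_iff_not_dvd).2 hPc
      obtain ⟨m1, a, s, h1, h2, h3, h4, h5, h6, h7, h8⟩ := ih c hcn hcm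
      have hP1 : IsCoprime P m1 := by
        apply hcopc.of_isCoprime_of_dvd_right
        exact ⟨_, h4⟩
      have hP2 : IsCoprime P (a ^ 2 * s) := by
        apply hcopc.of_isCoprime_of_dvd_right
        exact ⟨m1, by rw [h4]; ring⟩
      have hPs : IsCoprime P s := hP2.of_isCoprime_of_dvd_right ⟨a ^ 2, by ring⟩
      rcases Nat.even_or_odd' e with ⟨i, hi | hi⟩
      · refine ⟨m1, P ^ i * a, s, h1, (hPm.pow i).mul h2, h3, ?_, h5, ?_, h7, ?_⟩
        · rw [hc, h4, hi]; ring
        · have h9 : (P ^ i * a) ^ 2 * s = (P ^ i) ^ 2 * (a ^ 2 * s) := by ring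
          rw [h9]
          exact IsCoprime.mul_right ((hP1.symm.pow_right).pow_right) h6
        · obtain ⟨w, hw⟩ := h8
          exact ⟨P ^ i * w, by rw [mul_assoc, hw]; ring⟩
      · by_cases hPt : i ≠ 0 ∨ P ∣ t
        · refine ⟨m1, P ^ i * a, P * s, h1, (hPm.pow i).mul h2, hPm.mul h3, ?_, h5, ?_, h7, ?_⟩
          · rw [hc, h4, hi]; ring
          · have h9 : (P ^ i * a) ^ 2 * (P * s) = (P ^ i) ^ 2 * (P * (a ^ 2 * s)) := by ring
            rw [h9]
            exact IsCoprime.mul_right ((hP1.symm.pow_right).pow_right)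
              (IsCoprime.mul_right hP1.symm h6)
          · apply hPs.mul_dvd
            · rcases hPt with hi0 | hPt
              · exact Dvd.dvd.mul_right (Dvd.dvd.mul_right (dvd_pow_self P hi0) a) t
              · exact Dvd.dvd.mul_left hPt _
            · obtain ⟨w, hw⟩ := h8
              exact ⟨P ^ i * w, by rw [mul_assoc, hw]; ring⟩
        · push Not at hPt
          obtain ⟨hi0, hPt⟩ := hPt
          have he1 : e = 1 := by omega
          refine ⟨P * m1, a, s, hPm.mul h1, h2, h3, ?_, ?_, ?_, ?_, h8⟩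
          · rw [hc, h4, he1]; ring
          · rw [squarefree_mul_iff]
            exact ⟨hP1.isRelPrime, hPi.squarefree, h5⟩
          · exact IsCoprime.mul_left hP2 h6
          · exact IsCoprime.mul_left ((hPi.coprime_iff_not_dvd).2 hPt) h7

theorem hKDC : StKDC := by
  intro F _ _ m t hm _
  exact kdc_aux F t m.natDegree m le_rfl hm

end Pool.Agent.Helper66.EP
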